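import Pool.Agent.Lib.MP_fa7d23_ag.Curve

set_option autoImplicit false

/-!
The naive dimension count: forms of degree `n` with assigned multiplicities `ν i` at affine
points form a space of dimension at least `(n+1)(n+2)/2 - ∑ ν i (ν i + 1)/2`.
-/

namespace Pool.Agent.Lib.MP_fa7d23_ag
open MvPolynomial

/-- Index set of the pairs `(a, b)` with `a + b < ν`, coded as `(a + b, a)`. -/
abbrev T (ν : ℕ) : Type := (j : Fin ν) × Fin (j.val + 1)

lemma card_T (ν : ℕ) : 2 * Fintype.card (T ν) = ν * (ν + 1) := by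
  rw [Fintype.card_sigma]
  simp only [Fintype.card_fin]
  rw [Fin.sum_univ_eq_sum_range (fun j => j + 1) ν]
  induction ν with
  | zero => simp
  | succ n ih => rw [Finset.sum_range_succ, mul_add, ih]; ring

/-- The exponent vector `(a, b, n - a - b)`. -/
noncomputable def ex (n : ℕ) {ν : ℕ} (s : T ν) : Fin 3 →₀ ℕ :=
  Finsupp.equivFunOnFinite.symm ![s.2.val, s.1.val - s.2.val, n - s.1.val]

lemma ex_zero (n : ℕ) {ν : ℕ} (s : T ν) : ex n s 0 = s.2.val := rfl
lemma ex_one (n : ℕ) {ν : ℕ} (s : T ν) : ex n s 1 = s.1.val - s.2.val := rfl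
lemma ex_two (n : ℕ) {ν : ℕ} (s : T ν) : ex n s 2 = n - s.1.val := rfl

lemma ex_injective (n ν : ℕ) : Function.Injective (ex n : T ν → Fin 3 →₀ ℕ) := by
  rintro ⟨⟨j, hj⟩, ⟨a, ha⟩⟩ ⟨⟨j', hj'⟩, ⟨a', ha'⟩⟩ h
  have h0 := congrArg (fun d => d 0) h
  have h1 := congrArg (fun d => d 1) h
  simp only [ex_zero, ex_one] at h0 h1 ha ha'
  obtain rfl : a = a' := h0
  obtain rfl : j = j' := by omega
  rfl

instance homog_finite (n : ℕ) : Module.Finite ℂ (homogeneousSubmodule (Fin 3) ℂ n) :=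
  Module.Finite.iff_fg.mpr (homogeneousSubmodule_fg (Fin 3) ℂ n)

lemma finrank_homog (n : ℕ) :
    (n + 1) * (n + 2) ≤ 2 * Module.finrank ℂ (homogeneousSubmodule (Fin 3) ℂ n) := by
  have hmem : ∀ s : T (n + 1), monomial (ex n s) (1 : ℂ) ∈ homogeneousSubmodule (Fin 3) ℂ n := by
    rintro ⟨⟨j, hj⟩, ⟨a, ha⟩⟩
    apply isHomogeneous_monomial
    rw [degree_three, ex_zero, ex_one, ex_two]
    simp only at ha ⊢
    omega
  have hli : LinearIndependent ℂ
      (fun s : T (n + 1) => (⟨monomial (ex n s) (1 : ℂ), hmem s⟩ :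
        homogeneousSubmodule (Fin 3) ℂ n)) := by
    apply LinearIndependent.of_comp (homogeneousSubmodule (Fin 3) ℂ n).subtype
    have := (basisMonomials (Fin 3) ℂ).linearIndependent.comp _ (ex_injective n (n + 1))
    convert this using 1
    funext s
    simp
  have h := hli.fintype_card_le_finrank
  have h2 := card_T (n + 1)
  nlinarith

/-- Translation moving the point `(x, y, 1)` to `(0, 0, 1)`. -/
noncomputable def shift (x y : ℂ) : R →ₐ[ℂ] R := aeval ![X 0 + C x * X 2, X 1 + C y * X 2, X 2]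

lemma shift_shift (x y : ℂ) (f : R) : shift (-x) (-y) (shift x y f) = f := by
  have : (shift (-x) (-y)).comp (shift x y) = AlgHom.id ℂ R := by
    apply MvPolynomial.algHom_ext
    intro i
    fin_cases i <;> simp [shift]
  exact DFunLike.congr_fun this f

lemma shift_isHomogeneous (x y : ℂ) (n : ℕ) (f : R) (hf : f.IsHomogeneous n) :
    (shift x y f).IsHomogeneous n := by
  have := hf.aeval (n := 1) ![X 0 + C x * X 2, X 1 + C y * X 2, (X 2 : R)] (by
    intro i
    fin_cases i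
    · exact (isHomogeneous_X ℂ 0).add (isHomogeneous_C_mul_X x 2)
    · exact (isHomogeneous_X ℂ 1).add (isHomogeneous_C_mul_X y 2)
    · exact isHomogeneous_X ℂ 2)
  rwa [one_mul] at this

lemma mem_pow_of_coeff (x y : ℂ) (n ν : ℕ) (f : R) (hf : f.IsHomogeneous n)
    (h : ∀ s : T ν, coeff (ex n s) (shift x y f) = 0) : f ∈ I ![x, y, 1] ^ ν := by
  have h1 : (X 0 - C x * X 2 : R) ∈ I ![x, y, 1] := by
    apply Ideal.subset_span
    exact ⟨(2, 0), by simp⟩
  have h2 : (X 1 - C y * X 2 : R) ∈ I ![x, y, 1] := by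
    apply Ideal.subset_span
    exact ⟨(2, 1), by simp⟩
  have hg := shift_isHomogeneous x y n f hf
  rw [← shift_shift x y f, (shift x y f).as_sum, map_sum]
  apply Ideal.sum_mem
  intro d hd
  have hdeg : d 0 + d 1 + d 2 = n := by
    rw [← degree_three]
    by_contra hne
    exact (mem_support_iff.mp hd) (hg.coeff_eq_zero hne)
  have hν : ν ≤ d 0 + d 1 := by
    by_contra hlt
    have hlt' : d 0 + d 1 < ν := by omega
    have := h ⟨⟨d 0 + d 1, hlt'⟩, ⟨d 0, by simp only; omega⟩⟩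
    apply mem_support_iff.mp hd
    convert this using 2
    ext i
    fin_cases i
    · rfl
    · simp [ex_one]
    · simp only [Fin.reduceFinMk, ex_two]; omega
  have : shift (-x) (-y) (monomial d (coeff d (shift x y f))) =
      (C (coeff d (shift x y f)) * X 2 ^ d 2) *
        ((X 0 - C x * X 2) ^ d 0 * (X 1 - C y * X 2) ^ d 1) := by
    rw [shift, aeval_monomial, Finsupp.prod_fintype _ _ (by simp), Fin.prod_univ_three]
    simp only [algebraMap_eq, Matrix.cons_val_zero, Matrix.cons_val_one, Matrix.cons_val, map_neg]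
    ring
  rw [this]
  apply Ideal.mul_mem_left
  apply Ideal.pow_le_pow_right hν
  rw [pow_add]
  exact Ideal.mul_mem_mul (Ideal.pow_mem_pow h1 _) (Ideal.pow_mem_pow h2 _)

/-- Forms of degree `n` with multiplicity at least `ν i` at `p i`. -/
noncomputable def W {r : ℕ} (p : Fin r → Fin 3 → ℂ) (n : ℕ) (ν : Fin r → ℕ) : Submodule ℂ R :=
  homogeneousSubmodule (Fin 3) ℂ n ⊓ ⨅ i, Submodule.restrictScalars ℂ (I (p i) ^ ν i)

lemma mem_W {r : ℕ} (p : Fin r → Fin 3 → ℂ) (n : ℕ) (ν : Fin r → ℕ) (f : R) :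
    f ∈ W p n ν ↔ f.IsHomogeneous n ∧ ∀ i, f ∈ I (p i) ^ ν i := by
  simp [W, Submodule.mem_iInf]

instance W_finite {r : ℕ} (p : Fin r → Fin 3 → ℂ) (n : ℕ) (ν : Fin r → ℕ) :
    Module.Finite ℂ (W p n ν) :=
  Submodule.finiteDimensional_of_le (S₂ := homogeneousSubmodule (Fin 3) ℂ n) inf_le_left

lemma count {r : ℕ} (x y : Fin r → ℂ) (n : ℕ) (ν : Fin r → ℕ) :
    (n + 1) * (n + 2) ≤
      2 * Module.finrank ℂ (W (fun i => ![x i, y i, 1]) n ν) + ∑ i, ν i * (ν i + 1) := by
  let Λ : homogeneousSubmodule (Fin 3) ℂ n →ₗ[ℂ] (((i : Fin r) × T (ν i)) → ℂ) :=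
    LinearMap.pi fun s => (lcoeff ℂ (ex n s.2)) ∘ₗ (shift (x s.1) (y s.1)).toLinearMap ∘ₗ
      (homogeneousSubmodule (Fin 3) ℂ n).subtype
  have h1 := LinearMap.finrank_range_add_finrank_ker Λ
  have h2 : Module.finrank ℂ (LinearMap.range Λ) ≤ Fintype.card ((i : Fin r) × T (ν i)) := by
    have := Submodule.finrank_le (LinearMap.range Λ)
    rwa [Module.finrank_fintype_fun_eq_card] at this
  have h3 : 2 * Fintype.card ((i : Fin r) × T (ν i)) = ∑ i, ν i * (ν i + 1) := by
    rw [Fintype.card_sigma, Finset.mul_sum]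
    exact Finset.sum_congr rfl fun i _ => card_T _
  have h4 : Module.finrank ℂ (LinearMap.ker Λ) ≤
      Module.finrank ℂ (W (fun i => ![x i, y i, 1]) n ν) := by
    rw [← Submodule.finrank_map_subtype_eq]
    apply Submodule.finrank_mono
    rintro _ ⟨f, hf, rfl⟩
    rw [mem_W]
    refine ⟨f.2, fun i => mem_pow_of_coeff _ _ n _ _ f.2 fun s => ?_⟩
    exact congrFun (LinearMap.mem_ker.mp hf) ⟨i, s⟩
  have h5 := finrank_homog n
  omega

end Pool.Agent.Lib.MP_fa7d23_ag
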