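import Mathlib

set_option autoImplicit false

/-!
The rational plane quartic D : y = x^4 - 325 x^2 and intersection numbers with it,
computed through the parametrisation t ↦ (t, t^4 - 325 t^2, 1).
-/

namespace Pool.Agent.Lib.MP_fa7d23_ag
open MvPolynomial

abbrev R : Type := MvPolynomial (Fin 3) ℂ

/-- The homogeneous ideal of the point `p`. -/
noncomputable def I (p : Fin 3 → ℂ) : Ideal R :=
  Ideal.span (Set.range fun ab : Fin 3 × Fin 3 => C (p ab.1) * X ab.2 - C (p ab.2) * X ab.1)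

def q (t : ℂ) : ℂ := t ^ 4 - 325 * t ^ 2

def pt (t : ℂ) : Fin 3 → ℂ := ![t, q t, 1]

noncomputable def qp : Polynomial ℂ := Polynomial.X ^ 4 - Polynomial.C 325 * Polynomial.X ^ 2

noncomputable def phi : R →ₐ[ℂ] Polynomial ℂ := aeval ![Polynomial.X, qp, 1]

noncomputable def D : R := X 1 * X 2 ^ 3 - (X 0 ^ 4 - C 325 * X 0 ^ 2 * X 2 ^ 2)

lemma map_mem_pow {S : Type} [CommRing S] [Algebra ℂ S] (ψ : R →ₐ[ℂ] S) (J : Ideal S)
    (p : Fin 3 → ℂ) (h : ∀ a b : Fin 3, ψ (C (p a) * X b - C (p b) * X a) ∈ J)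
    (μ : ℕ) (f : R) (hf : f ∈ I p ^ μ) : ψ f ∈ J ^ μ := by
  have h1 : Ideal.map ψ (I p) ≤ J := by
    rw [Ideal.map_le_iff_le_comap, I, Ideal.span_le]
    rintro _ ⟨ab, rfl⟩
    exact h ab.1 ab.2
  have h2 : ψ f ∈ Ideal.map ψ (I p ^ μ) := Ideal.mem_map_of_mem _ hf
  rw [Ideal.map_pow] at h2
  exact Ideal.pow_right_mono h1 μ h2

lemma eval_eq_zero_of_mem (p : Fin 3 → ℂ) (μ : ℕ) (hμ : 1 ≤ μ) (f : R) (hf : f ∈ I p ^ μ) :
    eval p f = 0 := by
  have h := map_mem_pow (aeval p : R →ₐ[ℂ] ℂ) ⊥ p (by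
    intro a b
    simp [mul_comm]) μ f hf
  rw [Ideal.bot_pow (by omega)] at h
  simpa using h

lemma phi_dvd (t : ℂ) (μ : ℕ) (f : R) (hf : f ∈ I (pt t) ^ μ) :
    (Polynomial.X - Polynomial.C t) ^ μ ∣ phi f := by
  have h := map_mem_pow phi (Ideal.span {Polynomial.X - Polynomial.C t}) (pt t) (by
    intro a b
    rw [Ideal.mem_span_singleton, Polynomial.dvd_iff_isRoot]
    fin_cases a <;> fin_cases b <;> simp [phi, pt, q, qp] <;> ring) μ f hf
  rwa [Ideal.span_singleton_pow, Ideal.mem_span_singleton] at h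

lemma D_mem_le_one (t : ℂ) (μ : ℕ) (hf : D ∈ I (pt t) ^ μ) : μ ≤ 1 := by
  have h := map_mem_pow
    (aeval ![Polynomial.C t, Polynomial.C (q t) + Polynomial.X, 1] : R →ₐ[ℂ] Polynomial ℂ)
    (Ideal.span {Polynomial.X}) (pt t) (by
    intro a b
    rw [Ideal.mem_span_singleton, Polynomial.X_dvd_iff, Polynomial.coeff_zero_eq_eval_zero]
    fin_cases a <;> fin_cases b <;> simp [pt, q] <;> ring) μ D hf
  rw [Ideal.span_singleton_pow, Ideal.mem_span_singleton] at h
  have h2 : (aeval ![Polynomial.C t, Polynomial.C (q t) + Polynomial.X, 1] : R →ₐ[ℂ] Polynomial ℂ)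
      D = Polynomial.X := by
    simp [D, q]
  rw [h2] at h
  have h3 := Polynomial.natDegree_le_of_dvd h Polynomial.X_ne_zero
  simpa using h3

lemma qp_monic : qp.Monic := by
  unfold qp
  monicity!

lemma qp_natDegree : qp.natDegree = 4 := by
  unfold qp
  compute_degree!

lemma qp_nextCoeff : qp.nextCoeff = 0 := by
  rw [Polynomial.nextCoeff_of_natDegree_pos (by rw [qp_natDegree]; omega), qp_natDegree]
  simp [qp, Polynomial.coeff_X_pow]

lemma phi_monomial (d : Fin 3 →₀ ℕ) (c : ℂ) :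
    phi (monomial d c) = Polynomial.C c * (Polynomial.X ^ d 0 * qp ^ d 1) := by
  simp [phi, aeval_monomial, Finsupp.prod_fintype, Fin.prod_univ_three]

lemma degree_three (d : Fin 3 →₀ ℕ) : d.degree = d 0 + d 1 + d 2 := by
  rw [Finsupp.degree_eq_sum, Fin.sum_univ_three]

lemma phi_natDegree_coeff (e : ℕ) (f : R) (hf : f.IsHomogeneous e) :
    (phi f).natDegree ≤ 4 * e ∧ (1 ≤ e → (phi f).coeff (4 * e - 1) = 0) := by
  have hdeg : ∀ d ∈ f.support, d 0 + d 1 + d 2 = e := by
    intro d hd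
    rw [← degree_three]
    by_contra hne
    exact (mem_support_iff.mp hd) (hf.coeff_eq_zero hne)
  have hnd : ∀ d : Fin 3 →₀ ℕ, (Polynomial.X ^ d 0 * qp ^ d 1 : Polynomial ℂ).natDegree
      = d 0 + 4 * d 1 := by
    intro d
    rw [Polynomial.Monic.natDegree_mul (Polynomial.monic_X_pow _) (qp_monic.pow _),
      qp_monic.natDegree_pow, qp_natDegree, Polynomial.natDegree_X_pow]
    ring
  rw [f.as_sum, map_sum]
  constructor
  · apply Polynomial.natDegree_sum_le_of_forall_le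
    intro d hd
    rw [phi_monomial]
    refine (Polynomial.natDegree_C_mul_le _ _).trans ?_
    rw [hnd]
    have := hdeg d hd
    omega
  · intro he
    rw [Polynomial.finsetSum_coeff]
    apply Finset.sum_eq_zero
    intro d hd
    rw [phi_monomial, Polynomial.coeff_C_mul]
    have h1 := hdeg d hd
    by_cases h : d 1 = e
    · have h0 : d 0 = 0 := by omega
      have h2 := qp_monic.nextCoeff_pow e
      rw [qp_nextCoeff, smul_zero, Polynomial.nextCoeff_of_natDegree_pos, qp_monic.natDegree_pow,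
        qp_natDegree] at h2
      · rw [h0, h, pow_zero, one_mul, mul_comm 4 e, h2, mul_zero]
      · rw [qp_monic.natDegree_pow, qp_natDegree]; omega
    · rw [Polynomial.coeff_eq_zero_of_natDegree_lt, mul_zero]
      rw [hnd]; omega

lemma eval_smul_of_isHomogeneous (e : ℕ) (f : R) (hf : f.IsHomogeneous e) (c : ℂ)
    (v : Fin 3 → ℂ) : eval (fun i => c * v i) f = c ^ e * eval v f := by
  have hdeg : ∀ d ∈ f.support, d 0 + d 1 + d 2 = e := by
    intro d hd
    rw [← degree_three]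
    by_contra hne
    exact (mem_support_iff.mp hd) (hf.coeff_eq_zero hne)
  rw [eval_eq', eval_eq', Finset.mul_sum]
  apply Finset.sum_congr rfl
  intro d hd
  rw [Fin.prod_univ_three, Fin.prod_univ_three, ← hdeg d hd]
  ring

lemma eval_phi (t : ℂ) (f : R) : (phi f).eval t = eval (pt t) f := by
  induction f using MvPolynomial.induction_on with
  | C a => simp [phi]
  | add p r hp hr => simp [hp, hr]
  | mul_X p i hp =>
    rw [map_mul, map_mul, Polynomial.eval_mul, hp]
    congr 1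
    fin_cases i <;> simp [phi, pt, q, qp]

lemma pseudo_div (g : R) : ∃ (N : ℕ) (h : R) (r : MvPolynomial (Fin 2) ℂ),
    X 2 ^ N * g = D * h + rename ![0, 2] r := by
  induction g using MvPolynomial.induction_on with
  | C a => exact ⟨0, 0, C a, by simp⟩
  | add p r hp hr =>
    obtain ⟨N1, h1, r1, e1⟩ := hp
    obtain ⟨N2, h2, r2, e2⟩ := hr
    refine ⟨N1 + N2, X 2 ^ N2 * h1 + X 2 ^ N1 * h2, X 1 ^ N2 * r1 + X 1 ^ N1 * r2, ?_⟩
    simp only [map_add, map_mul, map_pow, rename_X, Matrix.cons_val_one, Matrix.cons_val_zero]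
    linear_combination X 2 ^ N2 * e1 + X 2 ^ N1 * e2
  | mul_X p i hp =>
    obtain ⟨N, h, r, e⟩ := hp
    fin_cases i
    · refine ⟨N, h * X 0, r * X 0, ?_⟩
      simp only [map_mul, rename_X, Matrix.cons_val_zero, Fin.zero_eta]
      linear_combination X 0 * e
    · refine ⟨N + 3, h * X 1 * X 2 ^ 3 + rename ![0, 2] r,
        r * (X 0 ^ 4 - C 325 * X 0 ^ 2 * X 1 ^ 2), ?_⟩
      simp only [map_mul, map_sub, map_pow, rename_X, rename_C, Matrix.cons_val_zero,
        Matrix.cons_val_one, Fin.mk_one]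
      unfold D at e ⊢
      linear_combination X 1 * X 2 ^ 3 * e
    · refine ⟨N, h * X 2, r * X 1, ?_⟩
      simp only [map_mul, rename_X, Matrix.cons_val_zero, Matrix.cons_val_one, Fin.reduceFinMk]
      linear_combination X 2 * e

lemma X2_not_dvd_D : ¬ (X 2 : R) ∣ D := by
  rintro ⟨h, hh⟩
  have := congrArg (eval ![1, 0, 0]) hh
  simp [D] at this

lemma D_dvd_of_phi_eq_zero (e : ℕ) (g : R) (hg : g.IsHomogeneous e) (h0 : phi g = 0) :
    D ∣ g := by
  obtain ⟨N, h, r, hr⟩ := pseudo_div g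
  have hz : X 1 * r = 0 := by
    apply MvPolynomial.funext
    intro v
    by_cases hv : v 1 = 0
    · simp [hv]
    · have h1 := congrArg (eval (fun i => v 1 * pt (v 0 / v 1) i)) hr
      rw [map_mul, eval_smul_of_isHomogeneous e g hg, ← eval_phi, h0, map_add, map_mul,
        eval_rename] at h1
      have h2 : eval (fun i => v 1 * pt (v 0 / v 1) i) D = 0 := by
        simp [D, pt, q]
        ring
      have h3 : ((fun i => v 1 * pt (v 0 / v 1) i) ∘ ![0, 2]) = v := by
        funext i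
        fin_cases i
        · simp [pt]; field_simp
        · simp [pt]
      rw [h2, h3] at h1
      simp only [Polynomial.eval_zero, mul_zero, zero_mul, zero_add] at h1
      simp [← h1]
  have hr0 : r = 0 := by
    rcases mul_eq_zero.mp hz with h | h
    · exact absurd h (X_ne_zero _)
    · exact h
  rw [hr0, map_zero, add_zero] at hr
  clear hz hr0
  have hp : Prime (X 2 : R) := X_prime
  have h1 : (X 2 : R) ^ N ∣ D * h := ⟨g, hr.symm⟩
  obtain ⟨h', rfl⟩ := hp.pow_dvd_of_dvd_mul_left N X2_not_dvd_D h1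
  refine ⟨h', ?_⟩
  have h2 : (X 2 : R) ^ N ≠ 0 := pow_ne_zero _ (X_ne_zero _)
  apply mul_left_cancel₀ h2
  rw [hr]; ring

lemma D_isHomogeneous : D.IsHomogeneous 4 := by
  unfold D
  apply IsHomogeneous.sub
  · exact (isHomogeneous_X ℂ 1).mul (isHomogeneous_X_pow 2 3)
  · apply IsHomogeneous.sub
    · exact isHomogeneous_X_pow 0 4
    · exact (isHomogeneous_C_mul_X_pow 325 0 2).mul (isHomogeneous_X_pow 2 2)

lemma D_ne_zero : D ≠ 0 := by
  intro h
  exact X2_not_dvd_D (h ▸ dvd_zero _)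

lemma four_le_of_D_dvd (e : ℕ) (g : R) (hg : g.IsHomogeneous e) (h0 : g ≠ 0) (h : D ∣ g) :
    4 ≤ e := by
  have := totalDegree_le_of_dvd_of_isDomain h h0
  rwa [D_isHomogeneous.totalDegree D_ne_zero, hg.totalDegree h0] at this

lemma D_mem (t : ℂ) : D ∈ I (pt t) := by
  have h1 : (X 0 - C t * X 2 : R) ∈ I (pt t) := by
    apply Ideal.subset_span
    exact ⟨(2, 0), by simp [pt]⟩
  have h2 : (X 1 - C (q t) * X 2 : R) ∈ I (pt t) := by
    apply Ideal.subset_span
    exact ⟨(2, 1), by simp [pt]⟩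
  have : D = X 2 ^ 3 * (X 1 - C (q t) * X 2) - (X 0 + C t * X 2) *
      (X 0 ^ 2 + C t ^ 2 * X 2 ^ 2 - C 325 * X 2 ^ 2) * (X 0 - C t * X 2) := by
    simp only [D, q, map_sub, map_mul, map_pow]
    ring
  rw [this]
  exact Ideal.sub_mem _ (Ideal.mul_mem_left _ _ h2) (Ideal.mul_mem_left _ _ h1)

/-- Bezout for a curve not containing `D`, with the linear relation in the extremal case. -/
lemma bezout {n : ℕ} (τ : Fin n → ℂ) (hτ : Function.Injective τ) (e : ℕ) (f : R)
    (hf : f.IsHomogeneous e) (h0 : phi f ≠ 0) (μ : Fin n → ℕ)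
    (hμ : ∀ i, f ∈ I (pt (τ i)) ^ μ i) :
    ∑ i, μ i ≤ 4 * e ∧ (1 ≤ e → ∑ i, μ i = 4 * e → ∑ i, (μ i : ℂ) * τ i = 0) := by
  have hd : (∏ i, (Polynomial.X - Polynomial.C (τ i)) ^ μ i) ∣ phi f := by
    apply Finset.prod_dvd_of_coprime
    · intro i _ j _ hij
      exact (Polynomial.isCoprime_X_sub_C_of_isUnit_sub
        (sub_ne_zero.mpr (hτ.ne hij)).isUnit).pow
    · intro i _
      exact phi_dvd _ _ _ (hμ i)
  have hm : ∀ i ∈ (Finset.univ : Finset (Fin n)),
      ((Polynomial.X - Polynomial.C (τ i)) ^ μ i).Monic :=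
    fun i _ => (Polynomial.monic_X_sub_C _).pow _
  have hP : (∏ i, (Polynomial.X - Polynomial.C (τ i)) ^ μ i).Monic :=
    Polynomial.monic_prod_of_monic _ _ hm
  have hnd : (∏ i, (Polynomial.X - Polynomial.C (τ i)) ^ μ i).natDegree = ∑ i, μ i := by
    rw [Polynomial.natDegree_prod_of_monic _ _ hm]
    simp
  have hle := Polynomial.natDegree_le_of_dvd hd h0
  obtain ⟨h1, h2⟩ := phi_natDegree_coeff e f hf
  refine ⟨by omega, fun he hs => ?_⟩
  obtain ⟨u, hu⟩ := hd
  have hu0 : u ≠ 0 := by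
    rintro rfl
    exact h0 (by rw [hu, mul_zero])
  have hdeg : u.natDegree = 0 := by
    have := congrArg Polynomial.natDegree hu
    rw [Polynomial.natDegree_mul hP.ne_zero hu0] at this
    omega
  rw [Polynomial.natDegree_eq_zero] at hdeg
  obtain ⟨c, rfl⟩ := hdeg
  have hc : c ≠ 0 := by
    rintro rfl
    exact hu0 (map_zero _)
  have h3 := h2 he
  rw [hu, Polynomial.coeff_mul_C, ← hs, ← hnd, ← Polynomial.nextCoeff_of_natDegree_pos (by omega),
    Polynomial.Monic.nextCoeff_prod _ _ hm] at h3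
  have h4 : ∀ i, ((Polynomial.X - Polynomial.C (τ i)) ^ μ i).nextCoeff = -((μ i : ℂ) * τ i) := by
    intro i
    rw [(Polynomial.monic_X_sub_C _).nextCoeff_pow, Polynomial.nextCoeff_X_sub_C]
    simp
  simp only [h4, Finset.sum_neg_distrib] at h3
  rcases mul_eq_zero.mp h3 with h | h
  · exact neg_eq_zero.mp h
  · exact absurd h hc

end Pool.Agent.Lib.MP_fa7d23_ag
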