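import Pool.Agent.Lib.MP_fa7d23_ag.Count

set_option autoImplicit false

/-!
The counterexample.  `D` is the quartic y = x^4 - 325 x^2, `Cu` the cubic made of three horizontal
lines, meeting `D` in twelve distinct points; three more non-collinear points are taken on `D`.
On the blow-up at these fifteen points `L = 4H - E_1 - ... - E_15` is the class of `D`.
-/

namespace Pool.Agent.Lib.MP_fa7d23_ag
open MvPolynomial

def τZ : Fin 15 → ℤ := ![1, -1, 18, -18, 6, -6, 17, -17, 10, -10, 15, -15, 100, 101, 102]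

def τ (i : Fin 15) : ℂ := (τZ i : ℂ)

lemma τ_injective : Function.Injective τ := by
  have h : Function.Injective τZ := by decide
  intro i j hij
  exact h (Int.cast_injective (α := ℂ) hij)

def P (i : Fin 15) : Fin 3 → ℂ := pt (τ i)

noncomputable def Cu : R :=
  (X 1 + C 324 * X 2) * (X 1 + C 10404 * X 2) * (X 1 + C 22500 * X 2)

lemma Cu_isHomogeneous : Cu.IsHomogeneous 3 := by
  unfold Cu
  exact (((isHomogeneous_X ℂ 1).add (isHomogeneous_C_mul_X _ 2)).mul
    ((isHomogeneous_X ℂ 1).add (isHomogeneous_C_mul_X _ 2))).mul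
    ((isHomogeneous_X ℂ 1).add (isHomogeneous_C_mul_X _ 2))

lemma line_mem (t c : ℂ) (h : q t = -c) : (X 1 + C c * X 2 : R) ∈ I (pt t) := by
  apply Ideal.subset_span
  exact ⟨(2, 1), by simp [pt, h]⟩

lemma Cu_mem (i : Fin 15) (hi : i.val < 12) : Cu ∈ I (P i) := by
  have h : q (τ i) = -324 ∨ q (τ i) = -10404 ∨ q (τ i) = -22500 := by
    fin_cases i <;> simp [τ, τZ, q] at hi ⊢ <;> norm_num
  unfold Cu P
  rcases h with h | h | h
  · exact Ideal.mul_mem_right _ _ (Ideal.mul_mem_right _ _ (line_mem _ _ h))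
  · exact Ideal.mul_mem_right _ _ (Ideal.mul_mem_left _ _ (line_mem _ _ h))
  · exact Ideal.mul_mem_left _ _ (line_mem _ _ h)

lemma Cu_ne_zero : Cu ≠ 0 := by
  intro h
  have := congrArg (eval ![0, 1, 0]) h
  simp [Cu] at this

lemma P_ne_zero (i : Fin 15) : P i ≠ 0 := by
  intro h
  have := congrFun h 2
  simp [P, pt] at this

lemma P_distinct (i j : Fin 15) (hij : i ≠ j) (c : ℂ) : P i ≠ c • P j := by
  intro h
  have h2 := congrFun h 2
  have h0 := congrFun h 0
  simp only [P, pt, Matrix.cons_val, Pi.smul_apply, smul_eq_mul, mul_one,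
    Matrix.cons_val_zero] at h2 h0
  rw [← h2, one_mul] at h0
  exact hij (τ_injective h0)

/-- `L` is nef. -/
lemma nef (e : ℕ) (g : R) (hg : g.IsHomogeneous e) (hirr : Irreducible g) (μ : Fin 15 → ℕ)
    (hμ : ∀ i, g ∈ I (P i) ^ μ i) : ∑ i, 1 * μ i ≤ 4 * e := by
  simp only [one_mul]
  by_cases h0 : phi g = 0
  · have hd := D_dvd_of_phi_eq_zero e g hg h0
    have h4 := four_le_of_D_dvd e g hg hirr.ne_zero hd
    obtain ⟨u, hu⟩ := hd
    have hDu : ¬ IsUnit D := by
      intro hD
      have := hD.map (eval ![0, 0, 1])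
      simp [D] at this
    have hunit : IsUnit u := (hirr.isUnit_or_isUnit hu).resolve_left hDu
    obtain ⟨v, hv⟩ := hunit.exists_right_inv
    have hle : ∀ i, μ i ≤ 1 := by
      intro i
      apply D_mem_le_one (τ i)
      have : D = g * v := by rw [hu, mul_assoc, hv, mul_one]
      rw [this]
      exact Ideal.mul_mem_right _ _ (hμ i)
    have : ∑ i, μ i ≤ ∑ _i : Fin 15, 1 := Finset.sum_le_sum fun i _ => hle i
    simp at this
    omega
  · exact (bezout τ τ_injective e g hg h0 μ hμ).1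

lemma const_le (f : R) (hf : f.IsHomogeneous 0) (h0 : f ≠ 0) (p : Fin 3 → ℂ) (μ : ℕ)
    (h : f ∈ I p ^ μ) : μ = 0 := by
  by_contra hμ
  have h1 := eval_eq_zero_of_mem p μ (by omega) f h
  have h2 := totalDegree_eq_zero_iff_eq_C.mp (hf.totalDegree h0)
  rw [h2, eval_C] at h1
  exact h0 (by rw [h2, h1, map_zero])

lemma line_eq_zero (f : R) (hf : f.IsHomogeneous 1) (h1 : eval (P 12) f = 0)
    (h2 : eval (P 13) f = 0) (h3 : eval (P 14) f = 0) : f = 0 := by
  have hf' : f ∈ homogeneousSubmodule (Fin 3) ℂ 1 := hf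
  rw [homogeneousSubmodule_one_eq_span_X, Submodule.mem_span_range_iff_exists_fun] at hf'
  obtain ⟨c, rfl⟩ := hf'
  simp only [Fin.sum_univ_three, smul_eq_C_mul, map_add, map_mul, eval_C, eval_X] at h1 h2 h3
  have e1 : P 12 = ![100, 96750000, 1] := by
    simp only [P, pt, τ, τZ, q, Matrix.cons_val]; norm_num
  have e2 : P 13 = ![101, 100745076, 1] := by
    simp only [P, pt, τ, τZ, q, Matrix.cons_val]; norm_num
  have e3 : P 14 = ![102, 104861916, 1] := by
    simp only [P, pt, τ, τZ, q, Matrix.cons_val]; norm_num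
  rw [e1] at h1
  rw [e2] at h2
  rw [e3] at h3
  simp only [Matrix.cons_val, Matrix.cons_val_zero, Matrix.cons_val_one] at h1 h2 h3
  have c1 : c 1 = 0 := by linear_combination (h1 - 2 * h2 + h3) / 121764
  have c0 : c 0 = 0 := by linear_combination h2 - h1 - 3995076 * c1
  have c2 : c 2 = 0 := by linear_combination h1 - 100 * c0 - 96750000 * c1
  simp [Fin.sum_univ_three, c0, c1, c2]

lemma sum_cast (μ : Fin 15 → ℕ) (h : ∑ i, (μ i : ℂ) * τ i = 0) : ∑ i, (μ i : ℤ) * τZ i = 0 := by
  apply Int.cast_injective (α := ℂ)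
  push_cast
  exact h

/-- Condition (B) fails for `L`. -/
lemma notB : ¬ ∃ (e : ℕ) (γ : Fin 15 → ℤ), (e ≠ 0 ∨ γ ≠ 0) ∧
    (∃ f : R, f ≠ 0 ∧ f.IsHomogeneous e ∧ ∀ i, f ∈ I (P i) ^ (γ i).toNat) ∧
    e ≤ 4 ∧
    (∃ f : R, f ≠ 0 ∧ f.IsHomogeneous (4 - e) ∧
      ∀ i, f ∈ I (P i) ^ (((1 : ℕ) : ℤ) - γ i).toNat) ∧
    (e : ℤ) ^ 2 - ∑ i, (γ i) ^ 2 - 3 * (e : ℤ) + ∑ i, γ i > -2 ∧
    ((4 : ℕ) : ℤ) * (e : ℤ) - ∑ i, ((1 : ℕ) : ℤ) * γ i = 0 := by
  rintro ⟨e, γ, hne, ⟨f, hf0, hf, hfI⟩, he, ⟨g, hg0, hg, hgI⟩, hgen, hdot⟩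
  simp only [Nat.cast_one, one_mul, Nat.cast_ofNat] at hdot hgI
  have hnn : ∀ i, 0 ≤ γ i ^ 2 - γ i := fun i => by
    rcases le_or_gt (γ i) 0 with h | h <;> nlinarith
  have hsum : ∑ i, (γ i ^ 2 - γ i) = ∑ i, γ i ^ 2 - ∑ i, γ i := Finset.sum_sub_distrib _ _
  have hsum0 : 0 ≤ ∑ i, (γ i ^ 2 - γ i) := Finset.sum_nonneg fun i _ => hnn i
  have hsingle : ∀ i, γ i ^ 2 - γ i ≤ ∑ i, (γ i ^ 2 - γ i) := fun i =>
    Finset.single_le_sum (f := fun i => γ i ^ 2 - γ i) (fun i _ => hnn i) (Finset.mem_univ i)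
  interval_cases e
  · have hle : ∀ i, γ i ≤ 0 := fun i => by
      have := const_le f hf hf0 _ _ (hfI i)
      omega
    have hz : ∀ i ∈ (Finset.univ : Finset (Fin 15)), γ i = 0 := by
      rw [← Finset.sum_eq_zero_iff_of_nonpos fun i _ => hle i]
      simpa using hdot
    rcases hne with h | h
    · exact h rfl
    · exact h (funext fun i => hz i (Finset.mem_univ i))
  · push_cast at hgen; omega
  · push_cast at hgen; omega
  · have h01 : ∀ i, 0 ≤ γ i ∧ γ i ≤ 1 := fun i => by
      have h1 := hsingle i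
      have h2 : γ i ^ 2 - γ i < 2 := by push_cast at hgen; omega
      constructor <;> nlinarith
    have hphi : phi f ≠ 0 := by
      intro h
      have := four_le_of_D_dvd 3 f hf hf0 (D_dvd_of_phi_eq_zero 3 f hf h)
      omega
    have hcast : ∀ i, ((γ i).toNat : ℤ) = γ i := fun i => Int.toNat_of_nonneg (h01 i).1
    have hs : ∑ i, (γ i).toNat = 4 * 3 := by
      apply Nat.cast_injective (R := ℤ)
      push_cast
      simp only [hcast]
      push_cast at hdot
      omega
    have hrel := sum_cast _ ((bezout τ τ_injective 3 f hf hphi _ hfI).2 (by omega) hs)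
    simp only [hcast, Fin.sum_univ_succ, τZ, Matrix.cons_val_zero, Matrix.cons_val_succ,
      Finset.univ_eq_empty, Finset.sum_empty] at hrel
    have a0 := h01 0
    have a1 := h01 1
    have a2 := h01 2
    have a3 := h01 3
    have a4 := h01 4
    have a5 := h01 5
    have a6 := h01 6
    have a7 := h01 7
    have a8 := h01 8
    have a9 := h01 9
    have a10 := h01 10
    have a11 := h01 11
    have a12 := h01 12
    have a13 := h01 13
    have a14 := h01 14
    have hrel' : γ 0 * 1 + (γ 1 * -1 + (γ 2 * 18 + (γ 3 * -18 + (γ 4 * 6 + (γ 5 * -6 +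
      (γ 6 * 17 + (γ 7 * -17 + (γ 8 * 10 + (γ 9 * -10 + (γ 10 * 15 + (γ 11 * -15 +
      (γ 12 * 100 + (γ 13 * 101 + (γ 14 * 102 + 0)))))))))))))) = 0 := hrel
    have b12 : γ 12 = 0 := by omega
    have b13 : γ 13 = 0 := by omega
    have b14 : γ 14 = 0 := by omega
    apply hg0
    apply line_eq_zero g hg
    · exact eval_eq_zero_of_mem _ _ (by omega) g (hgI 12)
    · exact eval_eq_zero_of_mem _ _ (by omega) g (hgI 13)
    · exact eval_eq_zero_of_mem _ _ (by omega) g (hgI 14)
  · have hge : ∀ i, 1 ≤ γ i := fun i => by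
      have := const_le g hg hg0 _ _ (hgI i)
      omega
    have hcast : ∀ i, ((γ i).toNat : ℤ) = γ i := fun i =>
      Int.toNat_of_nonneg (by have := hge i; omega)
    have hs : ∑ i, (γ i).toNat = 4 * 4 := by
      apply Nat.cast_injective (R := ℤ)
      push_cast
      simp only [hcast]
      push_cast at hdot
      omega
    by_cases hphi : phi f = 0
    · obtain ⟨u, hu⟩ := D_dvd_of_phi_eq_zero 4 f hf hphi
      have hu0 : u ≠ 0 := by
        rintro rfl
        exact hf0 (by rw [hu, mul_zero])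
      have hdeg : u.totalDegree = 0 := by
        have := congrArg totalDegree hu
        rw [totalDegree_mul_of_isDomain D_ne_zero hu0, hf.totalDegree hf0,
          D_isHomogeneous.totalDegree D_ne_zero] at this
        omega
      have hC := totalDegree_eq_zero_iff_eq_C.mp hdeg
      have hc : coeff 0 u ≠ 0 := by
        intro h
        exact hu0 (by rw [hC, h, map_zero])
      have hle : ∀ i, (γ i).toNat ≤ 1 := by
        intro i
        apply D_mem_le_one (τ i)
        have : D = f * C (coeff 0 u)⁻¹ := by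
          rw [hu, mul_assoc]
          nth_rewrite 1 [hC]
          rw [← map_mul, mul_inv_cancel₀ hc, map_one, mul_one]
        rw [this]
        exact Ideal.mul_mem_right _ _ (hfI i)
      have : ∑ i, (γ i).toNat ≤ ∑ _i : Fin 15, 1 := Finset.sum_le_sum fun i _ => hle i
      simp at this
      omega
    · have hrel := sum_cast _ ((bezout τ τ_injective 4 f hf hphi _ hfI).2 (by omega) hs)
      simp only [hcast, Fin.sum_univ_succ, τZ, Matrix.cons_val_zero, Matrix.cons_val_succ,
        Finset.univ_eq_empty, Finset.sum_empty] at hrel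
      have hrel' : γ 0 * 1 + (γ 1 * -1 + (γ 2 * 18 + (γ 3 * -18 + (γ 4 * 6 + (γ 5 * -6 +
        (γ 6 * 17 + (γ 7 * -17 + (γ 8 * 10 + (γ 9 * -10 + (γ 10 * 15 + (γ 11 * -15 +
        (γ 12 * 100 + (γ 13 * 101 + (γ 14 * 102 + 0)))))))))))))) = 0 := hrel
      simp only [Fin.sum_univ_succ, Finset.univ_eq_empty, Finset.sum_empty] at hdot
      have hdot' : 4 * ((4 : ℕ) : ℤ) - (γ 0 + (γ 1 + (γ 2 + (γ 3 + (γ 4 + (γ 5 +
        (γ 6 + (γ 7 + (γ 8 + (γ 9 + (γ 10 + (γ 11 +
        (γ 12 + (γ 13 + (γ 14 + 0))))))))))))))) = 0 := hdot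
      have a0 := hge 0
      have a1 := hge 1
      have a2 := hge 2
      have a3 := hge 3
      have a4 := hge 4
      have a5 := hge 5
      have a6 := hge 6
      have a7 := hge 7
      have a8 := hge 8
      have a9 := hge 9
      have a10 := hge 10
      have a11 := hge 11
      have a12 := hge 12
      have a13 := hge 13
      have a14 := hge 14
      omega

/-- Every multiple of `L` is special. -/
lemma special (m : ℕ) (hm : 1 ≤ m) :
    m ^ 2 + 4 ≤ 2 * Module.finrank ℂ (W P (m * 4) fun _ => m * 1) + 3 * m := by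
  obtain ⟨m, rfl⟩ : ∃ m', m = m' + 1 := ⟨m - 1, by omega⟩
  let ν : Fin 15 → ℕ := fun i => if i.val < 12 then m else m + 1
  have hc := count τ (fun i => q (τ i)) (4 * m + 1) ν
  have hν : ∑ i, ν i * (ν i + 1) = 12 * (m * (m + 1)) + 3 * ((m + 1) * (m + 2)) := by
    simp only [Fin.sum_univ_succ, ν]
    simp
    ring
  change _ ≤ 2 * Module.finrank ℂ (W P (4 * m + 1) ν) + _ at hc
  have hmem : ∀ (G : R) (c : ℂ), G ∈ W P (4 * m + 1) ν →
      Cu * G + c • D ^ (m + 1) ∈ W P ((m + 1) * 4) fun _ => (m + 1) * 1 := by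
    intro G c hG
    apply Submodule.add_mem
    · rw [mem_W] at hG ⊢
      refine ⟨?_, fun i => ?_⟩
      · have := Cu_isHomogeneous.mul hG.1
        rwa [show 3 + (4 * m + 1) = (m + 1) * 4 by ring] at this
      · have hi := hG.2 i
        rw [mul_one]
        by_cases h : i.val < 12
        · simp only [ν, h, if_true] at hi
          rw [pow_succ']
          exact Ideal.mul_mem_mul (Cu_mem i h) hi
        · simp only [ν, h, if_false] at hi
          exact Ideal.mul_mem_left _ _ hi
    · apply Submodule.smul_mem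
      rw [mem_W]
      refine ⟨?_, fun i => ?_⟩
      · have := D_isHomogeneous.pow (m + 1)
        rwa [mul_comm] at this
      · rw [mul_one]
        exact Ideal.pow_mem_pow (D_mem _) _
  let F : (W P (4 * m + 1) ν × ℂ) →ₗ[ℂ] (W P ((m + 1) * 4) fun _ => (m + 1) * 1) :=
    { toFun := fun z => ⟨Cu * z.1.1 + z.2 • D ^ (m + 1), hmem _ _ z.1.2⟩
      map_add' := by
        intro z w
        apply Subtype.ext
        simp only [Prod.fst_add, Submodule.coe_add, Prod.snd_add, add_smul]
        ring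
      map_smul' := by
        intro c z
        apply Subtype.ext
        simp only [Prod.smul_fst, SetLike.val_smul, Prod.smul_snd, smul_eq_mul, RingHom.id_apply,
          smul_add, mul_smul_comm, mul_smul] }
  have hF : Function.Injective F := by
    rw [injective_iff_map_eq_zero]
    rintro ⟨G, c⟩ h
    have h1 : Cu * G.1 + c • D ^ (m + 1) = 0 := congrArg Subtype.val h
    have h2 := congrArg (eval ![1, 0, 0]) h1
    have hc0 : c = 0 := by
      simpa [Cu, D, smul_eq_C_mul] using h2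
    rw [hc0, zero_smul, add_zero] at h1
    have hG : G.1 = 0 := (mul_eq_zero.mp h1).resolve_left Cu_ne_zero
    exact Prod.ext (Subtype.ext hG) hc0
  have hle := LinearMap.finrank_le_finrank_of_injective hF
  rw [Module.finrank_prod, Module.finrank_self] at hle
  rw [hν] at hc
  nlinarith

end Pool.Agent.Lib.MP_fa7d23_ag
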