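import Pool.Agent.Lib.MP_fa7d23_ag.Main

set_option autoImplicit false

namespace Pool.Agent.Results.MP_fa7d23_ag.SpecialNef

open MvPolynomial

/-- Abscissae of the fifteen points `p_i = [x_i : x_i^4 - 325 x_i^2 : 1]` of the complex plane. -/
def xs : Fin 15 → ℤ := ![1, -1, 18, -18, 6, -6, 17, -17, 10, -10, 15, -15, 100, 101, 102]

/-- The maximal ideal of `p_i` in the affine chart `z = 1`. -/
noncomputable def mx (i : Fin 15) : Ideal (MvPolynomial (Fin 2) ℂ) :=
  Ideal.span {X 0 - C (xs i : ℂ), X 1 - C ((xs i : ℂ) ^ 4 - 325 * (xs i : ℂ) ^ 2)}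

/-- Dehomogenisation `f(x, y, z) ↦ f(x, y, 1)`. -/
noncomputable def deh : MvPolynomial (Fin 3) ℂ →ₐ[ℂ] MvPolynomial (Fin 2) ℂ := aeval ![X 0, X 1, 1]

/-- The Picard group of the blow-up: `(d, a)` is the class `d H - ∑ a_i E_i`. -/
abbrev Pic : Type := ℤ × (Fin 15 → ℤ)

/-- The intersection form. -/
def dot (D D' : Pic) : ℤ := D.1 * D'.1 - ∑ i, D.2 i * D'.2 i

/-- The canonical class `-3 H + ∑ E_i`. -/
def KX : Pic := (-3, fun _ => -1)

/-- The exceptional class `E_i`. -/
def E (i : Fin 15) : Pic := (0, -Pi.single i 1)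

/-- The class `L = 4 H - ∑ E_i`. -/
def L : Pic := (4, fun _ => 1)

/-- Global sections of `d H - ∑ a_i E_i`: forms of degree `d` with multiplicity at least `a_i`
at `p_i` (no condition if `a_i ≤ 0`), and `0` if `d < 0`. -/
noncomputable def H0 (D : Pic) : Submodule ℂ (MvPolynomial (Fin 3) ℂ) :=
  if 0 ≤ D.1 then
    homogeneousSubmodule (Fin 3) ℂ D.1.toNat ⊓
      ⨅ i, ((mx i ^ (D.2 i).toNat).restrictScalars ℂ).comap deh.toLinearMap
  else ⊥

open Pool.Agent.Lib.MP_fa7d23_ag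

lemma coeff_deh (n : ℕ) (g : R) (hg : g.IsHomogeneous n) (d : Fin 3 →₀ ℕ)
    (hd : d 0 + d 1 + d 2 = n) :
    coeff (Finsupp.single 0 (d 0) + Finsupp.single 1 (d 1)) (deh g) = coeff d g := by
  have hm : ∀ (s : Fin 3 →₀ ℕ) (c : ℂ), deh (monomial s c) =
      monomial (Finsupp.single 0 (s 0) + Finsupp.single 1 (s 1)) c := by
    intro s c
    rw [deh, aeval_monomial, Finsupp.prod_fintype _ _ (by simp), Fin.prod_univ_three]
    simp only [algebraMap_eq, Matrix.cons_val_zero, Matrix.cons_val_one, Matrix.cons_val, one_pow,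
      mul_one]
    rw [X_pow_eq_monomial, X_pow_eq_monomial, monomial_mul, C_mul_monomial]
    simp
  conv_lhs => rw [g.as_sum, map_sum, coeff_sum]
  rw [Finset.sum_eq_single d]
  · rw [hm, coeff_monomial, if_pos rfl]
  · intro s hs hne
    rw [hm, coeff_monomial, if_neg]
    intro he
    have h0 := congrArg (fun t => t 0) he
    have h1 := congrArg (fun t => t 1) he
    simp at h0 h1
    have hs' : s 0 + s 1 + s 2 = n := by
      rw [← degree_three]
      by_contra hne
      exact (mem_support_iff.mp hs) (hg.coeff_eq_zero hne)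
    apply hne
    ext i
    fin_cases i
    · exact h0
    · exact h1
    · change s 2 = d 2
      omega
  · intro h
    rw [notMem_support_iff.mp h, monomial_zero, map_zero deh, coeff_zero]

lemma mem_iff (i : Fin 15) (n μ : ℕ) (f : R) (hf : f.IsHomogeneous n) :
    deh f ∈ mx i ^ μ ↔ f ∈ I (P i) ^ μ := by
  have hP : P i = ![τ i, q (τ i), 1] := rfl
  have hmx : mx i = Ideal.span {X 0 - C (τ i), X 1 - C (q (τ i))} := rfl
  have m0 : (X 0 - C (τ i) : MvPolynomial (Fin 2) ℂ) ∈ mx i := Ideal.subset_span (Or.inl rfl)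
  have m1 : (X 1 - C (q (τ i)) : MvPolynomial (Fin 2) ℂ) ∈ mx i :=
    Ideal.subset_span (Or.inr rfl)
  constructor
  · intro h
    rw [hP]
    refine mem_pow_of_coeff _ _ n μ f hf fun s => ?_
    have hg := shift_isHomogeneous (τ i) (q (τ i)) n f hf
    have hs : s.2.val ≤ s.1.val := Nat.lt_succ_iff.mp s.2.isLt
    by_cases hn : s.1.val ≤ n
    · rw [← coeff_deh n _ hg (ex n s) (by rw [ex_zero, ex_one, ex_two]; omega)]
      let tr : MvPolynomial (Fin 2) ℂ →ₐ[ℂ] MvPolynomial (Fin 2) ℂ :=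
        aeval ![X 0 + C (τ i), X 1 + C (q (τ i))]
      have e1 : deh (shift (τ i) (q (τ i)) f) = tr (deh f) := by
        have : deh.comp (shift (τ i) (q (τ i))) = tr.comp deh := by
          apply MvPolynomial.algHom_ext
          intro j
          fin_cases j <;> simp [shift, deh, tr]
        exact DFunLike.congr_fun this f
      have e2 : Ideal.map tr (mx i) ≤ idealOfVars (Fin 2) ℂ := by
        rw [Ideal.map_le_iff_le_comap, hmx, Ideal.span_le]
        rintro _ (rfl | rfl)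
        · have : tr (X 0 - C (τ i)) = X 0 := by simp [tr]
          rw [SetLike.mem_coe, Ideal.mem_comap, this]
          exact Ideal.subset_span ⟨0, rfl⟩
        · have : tr (X 1 - C (q (τ i))) = X 1 := by simp [tr]
          rw [SetLike.mem_coe, Ideal.mem_comap, this]
          exact Ideal.subset_span ⟨1, rfl⟩
      have e3 : tr (deh f) ∈ idealOfVars (Fin 2) ℂ ^ μ := by
        have h2 : tr (deh f) ∈ Ideal.map tr (mx i ^ μ) := Ideal.mem_map_of_mem _ h
        rw [Ideal.map_pow] at h2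
        exact Ideal.pow_right_mono e2 μ h2
      rw [e1]
      refine (mem_pow_idealOfVars_iff' μ _).mp e3 _ ?_
      rw [map_add, Finsupp.degree_single, Finsupp.degree_single, ex_zero, ex_one]
      have := s.1.isLt
      omega
    · apply hg.coeff_eq_zero
      rw [degree_three, ex_zero, ex_one, ex_two]
      omega
  · intro h
    refine map_mem_pow deh (mx i) (P i) (fun a b => ?_) μ f h
    have m2 : deh (C (τ i) * X 1 - C (q (τ i)) * X 0) ∈ mx i := by
      have : deh (C (τ i) * X 1 - C (q (τ i)) * X 0) =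
          C (τ i) * (X 1 - C (q (τ i))) - C (q (τ i)) * (X 0 - C (τ i)) := by
        simp [deh]
        ring
      rw [this]
      exact Ideal.sub_mem _ (Ideal.mul_mem_left _ _ m1) (Ideal.mul_mem_left _ _ m0)
    have m3 : deh (C (q (τ i)) * X 0 - C (τ i) * X 1) ∈ mx i := by
      rw [← neg_sub, map_neg]
      exact (mx i).neg_mem m2
    have n0 := (mx i).neg_mem m0
    have n1 := (mx i).neg_mem m1
    rw [neg_sub] at n0 n1
    rw [hP]
    fin_cases a <;> fin_cases b
    · simp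
    · exact m2
    · simpa [deh] using n0
    · exact m3
    · simp
    · simpa [deh] using n1
    · simpa [deh] using m0
    · simpa [deh] using m1
    · simp

lemma H0_eq (D : Pic) (h : 0 ≤ D.1) : H0 D = W P D.1.toNat (fun i => (D.2 i).toNat) := by
  ext f
  rw [H0, if_pos h, mem_W, Submodule.mem_inf, Submodule.mem_iInf, mem_homogeneousSubmodule]
  refine and_congr_right fun hf => forall_congr' fun i => ?_
  exact mem_iff i _ _ f hf

lemma nonneg_of_ne (D : Pic) (h : H0 D ≠ ⊥) : 0 ≤ D.1 := by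
  by_contra h'
  exact h (by rw [H0, if_neg h'])

lemma exists_of_ne (D : Pic) (h : H0 D ≠ ⊥) : ∃ f : R, f ≠ 0 ∧ f.IsHomogeneous D.1.toNat ∧
    ∀ i, f ∈ I (P i) ^ (D.2 i).toNat := by
  obtain ⟨f, hf, h0⟩ := (Submodule.ne_bot_iff _).1 h
  rw [H0_eq D (nonneg_of_ne D h), mem_W] at hf
  exact ⟨f, h0, hf⟩

/-- On the blow-up of the complex plane in fifteen explicit distinct points, `L = 4 H - ∑ E_i` is
effective and nef, condition (B) fails, and every multiple has `h^2 = 0` and `h^0 > χ`. -/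
theorem result :
    Function.Injective xs ∧ H0 L ≠ ⊥ ∧
    ((∀ i, 0 ≤ dot L (E i)) ∧ ∀ D : Pic, (∃ g ∈ H0 D, Irreducible g) → 0 ≤ dot L D) ∧
    (¬ ∃ Cv : Pic, Cv ≠ 0 ∧ H0 Cv ≠ ⊥ ∧ H0 (L - Cv) ≠ ⊥ ∧ 0 < 2 + dot Cv Cv + dot KX Cv ∧
      dot L Cv = 0) ∧
    ∀ m : ℕ, 1 ≤ m → H0 (KX - m • L) = ⊥ ∧
      2 + dot (m • L) (m • L) - dot KX (m • L) < 2 * (Module.finrank ℂ (H0 (m • L)) : ℤ) := by
  refine ⟨by decide, ?_, ⟨?_, ?_⟩, ?_, ?_⟩
  · rw [Submodule.ne_bot_iff]
    refine ⟨Lib.MP_fa7d23_ag.D, ?_, D_ne_zero⟩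
    rw [H0_eq L (by decide), mem_W]
    refine ⟨D_isHomogeneous, fun i => ?_⟩
    change _ ∈ I (P i) ^ 1
    rw [pow_one]
    exact D_mem _
  · intro i
    simp [dot, L, E]
  · rintro ⟨e, γ⟩ ⟨g, hg, hirr⟩
    have he : 0 ≤ e := nonneg_of_ne (e, γ) ((Submodule.ne_bot_iff _).2 ⟨g, hg, hirr.ne_zero⟩)
    rw [H0_eq _ he, mem_W] at hg
    have h := nef e.toNat g hg.1 hirr (fun i => (γ i).toNat) hg.2
    have h1 : ∑ i, γ i ≤ ∑ i, ((γ i).toNat : ℤ) :=
      Finset.sum_le_sum fun i _ => Int.self_le_toNat _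
    zify at h
    simp only [one_mul] at h
    rw [Int.toNat_of_nonneg he] at h
    simp only [dot, L, one_mul]
    omega
  · rintro ⟨⟨e, γ⟩, hne, h1, h2, hgen, hdot⟩
    have he : 0 ≤ e := nonneg_of_ne _ h1
    have he4 : 0 ≤ 4 - e := nonneg_of_ne _ h2
    obtain ⟨e, rfl⟩ := Int.eq_ofNat_of_zero_le he
    refine notB ⟨e, γ, ?_, ?_, by omega, ?_, ?_, ?_⟩
    · by_contra hc
      push Not at hc
      exact hne (by rw [hc.1, hc.2]; rfl)
    · simpa using exists_of_ne _ h1
    · obtain ⟨f, hf0, hf, hfI⟩ := exists_of_ne _ h2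
      refine ⟨f, hf0, ?_, hfI⟩
      have : (L - ((e : ℤ), γ)).1.toNat = 4 - e := by
        change ((4 : ℤ) - e).toNat = 4 - e
        omega
      rwa [this] at hf
    · simp only [dot, KX, neg_mul, one_mul, Finset.sum_neg_distrib] at hgen
      simp only [sq]
      omega
    · simpa [dot, L] using hdot
  · intro m hm
    constructor
    · rw [H0, if_neg]
      change ¬ 0 ≤ (-3 : ℤ) - m • (4 : ℤ)
      rw [nsmul_eq_mul]
      omega
    · have hs := special m hm
      have e1 : m • L = (((m * 4 : ℕ) : ℤ), fun _ => ((m * 1 : ℕ) : ℤ)) := by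
        ext <;> simp [L]
      rw [e1, H0_eq _ (Int.natCast_nonneg _)]
      simp only [dot, KX, Int.toNat_natCast, Finset.sum_const, Finset.card_univ,
        Fintype.card_fin, nsmul_eq_mul]
      zify at hs
      push_cast
      nlinarith

end Pool.Agent.Results.MP_fa7d23_ag.SpecialNef
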